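import Pool.Agent.H269.SV.All

/-!
# MP_548236_gt: for centrally symmetric convex domains the cylindrical capacity is at most `7` times
the Gromov width, in every dimension
-/

set_option autoImplicit false

open Set
open scoped Pointwise

namespace Pool.Agent.Results.MP_548236_gt.SymmetricSeven

open Pool.Agent.Y52.SJ (std SympEmb ball cyl gromovWidth cylCapacity)

theorem emb_translate {n : ℕ} {K W : Set ((Fin n → ℝ) × (Fin n → ℝ))}
    (a : (Fin n → ℝ) × (Fin n → ℝ)) (h : SympEmb {x | a + x ∈ K} W) : SympEmb K W := by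
  obtain ⟨φ, h1, h2, h3, h4⟩ := h
  have hτ : ContDiff ℝ ((⊤ : ℕ∞) : WithTop ℕ∞)
      fun z : (Fin n → ℝ) × (Fin n → ℝ) => z - a := contDiff_id.sub contDiff_const
  have hm : ∀ z ∈ K, z - a ∈ {x | a + x ∈ K} := fun z hz => by
    show a + (z - a) ∈ K
    rw [add_sub_cancel]; exact hz
  refine ⟨fun z => φ (z - a), h1.comp hτ.contDiffOn hm, ?_, fun z hz => h3 (hm z hz), ?_⟩
  · intro z hz z' hz' h
    exact sub_left_injective (h2 (hm z hz) (hm z' hz') h)
  · intro z hz u v
    rw [fderiv_comp_sub]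
    exact h4 _ (hm z hz) u v

theorem translate_emb {n : ℕ} {K W : Set ((Fin n → ℝ) × (Fin n → ℝ))}
    (a : (Fin n → ℝ) × (Fin n → ℝ)) (h : SympEmb W {x | a + x ∈ K}) : SympEmb W K := by
  obtain ⟨φ, h1, h2, h3, h4⟩ := h
  refine ⟨fun z => a + φ z, contDiffOn_const.add h1, ?_, fun z hz => h3 hz, ?_⟩
  · intro z hz z' hz' h
    exact h2 hz hz' (add_left_cancel h)
  · intro z hz u v
    rw [fderiv_const_add]
    exact h4 _ hz u v

/-- For every convex domain `K` of `ℝ^{2N}`, `N = n + 1`, which is centrally symmetric about some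
point, the cylindrical capacity is at most `7` times the Gromov width. -/
theorem result : ∀ (n : ℕ) (K : Set ((Fin (n + 1) → ℝ) × (Fin (n + 1) → ℝ)))
    (a : (Fin (n + 1) → ℝ) × (Fin (n + 1) → ℝ)),
    IsOpen K → Convex ℝ K → Bornology.IsBounded K → K.Nonempty →
    (∀ x ∈ K, (2 : ℝ) • a - x ∈ K) →
    cylCapacity K ≤ ENNReal.ofReal 7 * gromovWidth K := by
  intro n K a hKo hKc hKb hKn hKs
  have e : {x | a + x ∈ K} = (fun x => a + x) ⁻¹' K := rfl
  have h := Pool.Agent.H269.SV.symm_seven n {x | a + x ∈ K} ?_ ?_ ?_ ?_ ?_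
  · have h1 : cylCapacity K ≤ cylCapacity {x | a + x ∈ K} := by
      unfold cylCapacity
      refine le_iInf₂ fun R hR => iInf₂_le R ⟨hR.1, emb_translate a hR.2⟩
    have h2 : gromovWidth {x | a + x ∈ K} ≤ gromovWidth K := by
      unfold gromovWidth
      refine iSup₂_le fun r hr => le_iSup₂_of_le r ⟨hr.1, translate_emb a hr.2⟩ le_rfl
    calc cylCapacity K ≤ cylCapacity {x | a + x ∈ K} := h1
      _ ≤ ENNReal.ofReal 7 * gromovWidth {x | a + x ∈ K} := h
      _ ≤ ENNReal.ofReal 7 * gromovWidth K := by gcongr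
  · exact hKo.preimage (by fun_prop)
  · rw [e]; exact hKc.translate_preimage_right _
  · have h1 : Bornology.IsBounded (K + {-a}) := hKb.add Bornology.isBounded_singleton
    refine h1.subset fun x hx => ?_
    rw [Set.mem_add]
    exact ⟨a + x, hx, -a, rfl, by abel⟩
  · obtain ⟨y, hy⟩ := hKn
    exact ⟨y - a, by show a + (y - a) ∈ K; rw [add_sub_cancel]; exact hy⟩
  · intro x hx
    have h1 := hKs _ hx
    have e2 : (2 : ℝ) • a - (a + x) = a + -x := by module
    rw [e2] at h1
    exact h1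

end Pool.Agent.Results.MP_548236_gt.SymmetricSeven
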